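import Pool.Agent.W312.WT.Stm

set_option autoImplicit false

namespace Pool.Agent.W922.WT

open Pool.Agent.W312.WT

lemma split_perm (P : List Jb) (h₁ h h₂ : ℕ) (h1 : h₁ ≤ h) (h2 : h ≤ h₂) :
    (P.filter (inR h₁ h) ++ P.filter (inR h h₂)).Perm (P.filter (inR h₁ h₂)) := by
  have key := List.filter_append_perm (fun y : Jb => decide (y.2.1 < h)) (P.filter (inR h₁ h₂))
  rw [List.filter_filter, List.filter_filter] at key
  have e1 : P.filter (fun y : Jb => decide (y.2.1 < h) && inR h₁ h₂ y) = P.filter (inR h₁ h) := by
    apply List.filter_congr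
    intro y _
    simp only [inR]
    rw [Bool.eq_iff_iff]
    simp only [Bool.and_eq_true, decide_eq_true_eq]
    omega
  have e2 : P.filter (fun y : Jb => !decide (y.2.1 < h) && inR h₁ h₂ y) = P.filter (inR h h₂) := by
    apply List.filter_congr
    intro y _
    simp only [inR]
    rw [Bool.eq_iff_iff]
    simp only [Bool.and_eq_true, decide_eq_true_eq, Bool.not_eq_true', decide_eq_false_iff_not]
    omega
  rw [e1, e2] at key
  exact key

theorem proof_SSnd : Pool.Agent.W312.WT.SSnd := by
  intro p x P T hT g hg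
  unfold stepE at hg
  rw [List.mem_append] at hg
  rcases hg with hg | hg
  · rw [List.mem_filter] at hg
    obtain ⟨hgT, hx⟩ := hg
    have hG := hT g hgT
    have hx' : inR g.1.1.1 g.1.1.2 x = false := by simpa using hx
    unfold Good at hG ⊢
    rw [List.filter_cons_of_neg (by rw [hx']; simp)]
    exact hG
  · simp only [List.mem_flatMap] at hg
    obtain ⟨e, he, f, hf, hg⟩ := hg
    unfold joinE at hg
    split_ifs at hg with hc
    · obtain ⟨c1, c2, c3, c4, c5, c6, c7, c8⟩ := hc
      have hgg := List.mem_singleton.1 hg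
      obtain ⟨e1, e2, e3, e4⟩ := hT e he
      obtain ⟨f1, f2, f3, f4⟩ := hT f hf
      subst hgg
      refine ⟨?_, ?_, ?_, ?_⟩
      · show ((e.2 ++ (x, f.1.2.2.1) :: f.2).map Prod.fst).Perm
          ((x :: P).filter (inR e.1.1.1 f.1.1.2))
        rw [List.filter_cons_of_pos c8, List.map_append, List.map_cons]
        refine List.perm_middle.trans ?_
        refine List.Perm.cons x ?_
        refine (e1.append f1).trans ?_
        rw [← c3]
        exact split_perm P _ _ _ c1 (by rw [c3]; exact c2)
      · show ChnT p e.1.2.1.1 e.1.2.2.1 ((e.2 ++ (x, f.1.2.2.1) :: f.2).map Prod.snd)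
        rw [List.map_append, List.map_cons, chnT_append]
        refine ⟨e2, ?_⟩
        rw [e3, List.length_map, ← e4]
        exact ⟨c5, c6, c7, by rw [← c4]; exact f2⟩
      · show lastT e.1.2.2.1 ((e.2 ++ (x, f.1.2.2.1) :: f.2).map Prod.snd) = f.1.2.2.2
        rw [List.map_append, List.map_cons, lastT_append]
        exact f3
      · show f.1.2.1.2 = e.1.2.1.1 + (e.2 ++ (x, f.1.2.2.1) :: f.2).length
        rw [List.length_append, List.length_cons]
        omega
    · exact absurd hg (List.not_mem_nil)

end Pool.Agent.W922.WT
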